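import Pool.Agent.Lib.MP_3d0876_an.Defs
import Pool.Agent.Lib.MP_3d0876_an.Part2

set_option autoImplicit false

namespace Pool.Agent.Results.MP_3d0876_an.NotOpen

open OpenConv3d0876 in
/-- For every infinite group `G`, convolution is well defined on `ℓ_1(G)` and is not an open map
`ℓ_1(G) × ℓ_1(G) → ℓ_1(G)`. -/
theorem result.{u} (G : Type u) [Group G] [Infinite G] :
    ∃ m : Ell1 G → Ell1 G → Ell1 G,
      IsConvolution m ∧ ¬ IsOpenMap (fun p : Ell1 G × Ell1 G => m p.1 p.2) :=
  ⟨fun f g => (mulL (G := G) f g : L1 G), fun f g x => hasSum_mulL (G := G) f g x,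
    not_open (G := G)⟩

end Pool.Agent.Results.MP_3d0876_an.NotOpen
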